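import Pool.Agent.NC.GNS

set_option autoImplicit false
open Classical

namespace Pool.Agent.Results.MP_c59e09_co.GraphicNotSpanning

/-- There is a matroid `M`, the cycle matroid of a connected simple graph with `10` vertices and
`23` edges `u i v i`, for which the correlation inequality holds with bases (for all pairs and all
positive weights) and fails with spanning sets; with independent sets it fails for the dual of
`M`. -/
theorem result :
    ∃ (u v : Fin 23 → Fin 10) (M : Matroid (Fin 23)), M.E = Set.univ ∧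
      (∀ i, u i ≠ v i) ∧ (Function.Injective fun i => s(u i, v i)) ∧
      (∀ A : Set (Fin 23), M.Spanning A ↔
        (SimpleGraph.fromEdgeSet ((fun i => s(u i, v i)) '' A)).Connected) ∧
      (∀ e f : Fin 23, e ≠ f → ∀ z : Fin 23 → ℝ, (∀ x, 0 < z x) →
        (∑ A : Finset (Fin 23),
            if M.IsBase (A : Set (Fin 23)) ∧ e ∈ A ∧ f ∈ A then ∏ a ∈ A, z a else 0) *
          (∑ A : Finset (Fin 23),
            if M.IsBase (A : Set (Fin 23)) then ∏ a ∈ A, z a else 0) ≤
        (∑ A : Finset (Fin 23),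
            if M.IsBase (A : Set (Fin 23)) ∧ e ∈ A then ∏ a ∈ A, z a else 0) *
          (∑ A : Finset (Fin 23),
            if M.IsBase (A : Set (Fin 23)) ∧ f ∈ A then ∏ a ∈ A, z a else 0)) ∧
      ¬ (∀ e f : Fin 23, e ≠ f → ∀ z : Fin 23 → ℝ, (∀ x, 0 < z x) →
        (∑ A : Finset (Fin 23),
            if M.Spanning (A : Set (Fin 23)) ∧ e ∈ A ∧ f ∈ A then ∏ a ∈ A, z a else 0) *
          (∑ A : Finset (Fin 23),
            if M.Spanning (A : Set (Fin 23)) then ∏ a ∈ A, z a else 0) ≤
        (∑ A : Finset (Fin 23),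
            if M.Spanning (A : Set (Fin 23)) ∧ e ∈ A then ∏ a ∈ A, z a else 0) *
          (∑ A : Finset (Fin 23),
            if M.Spanning (A : Set (Fin 23)) ∧ f ∈ A then ∏ a ∈ A, z a else 0)) ∧
      ¬ (∀ e f : Fin 23, e ≠ f → ∀ z : Fin 23 → ℝ, (∀ x, 0 < z x) →
        (∑ A : Finset (Fin 23),
            if M✶.Indep (A : Set (Fin 23)) ∧ e ∈ A ∧ f ∈ A then ∏ a ∈ A, z a else 0) *
          (∑ A : Finset (Fin 23),
            if M✶.Indep (A : Set (Fin 23)) then ∏ a ∈ A, z a else 0) ≤
        (∑ A : Finset (Fin 23),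
            if M✶.Indep (A : Set (Fin 23)) ∧ e ∈ A then ∏ a ∈ A, z a else 0) *
          (∑ A : Finset (Fin 23),
            if M✶.Indep (A : Set (Fin 23)) ∧ f ∈ A then ∏ a ∈ A, z a else 0)) := by
  refine ⟨fun i => (Pool.NC.ends i).1, fun i => (Pool.NC.ends i).2, Pool.NC.M, rfl,
    Pool.NC.not_loop, Pool.NC.edge_injective, Pool.NC.M_spanning, ?_, ?_, ?_⟩
  · intro e f hef z hz
    convert Pool.Agent.NC.cyc_rayleigh Pool.NC.src Pool.NC.tgt Pool.NC.conn_univ z hz e f hef
    all_goals rfl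
  · intro h
    exact absurd Pool.NC.M_spanning_lt (not_lt.2 (h 0 1 (by decide) Pool.NC.wt Pool.NC.wt_pos))
  · intro h
    exact absurd Pool.NC.M_dual_lt (not_lt.2 (h 0 1 (by decide) (fun i => (Pool.NC.len i : ℝ))
      Pool.NC.lenR_pos))

end Pool.Agent.Results.MP_c59e09_co.GraphicNotSpanning
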