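import Pool.Agent.IS.ParRay

set_option autoImplicit false
open Classical

namespace Pool.Agent.Results.MP_c59e09_co.PavingSpanning

/-- Let every circuit of the finite matroid `M` have at most two or at least `r(M)` elements (the
simplification of `M` is paving), and let `e`, `f` be distinct elements. If the correlation
inequality for the pair `e, f` holds for all positive weights with independent sets, or with bases,
then it holds for all positive weights with spanning sets. -/
theorem result {α : Type*} [Fintype α] (M : Matroid α) (hE : M.E = Set.univ)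
    (hpav : ∀ C, M.IsCircuit C → C.encard ≤ 2 ∨ M.eRank ≤ C.encard) (e f : α) (hef : e ≠ f)
    (hIB : (∀ z : α → ℝ, (∀ x, 0 < z x) →
      (∑ A : Finset α,
          if M.Indep (A : Set α) ∧ e ∈ A ∧ f ∈ A then ∏ a ∈ A, z a else 0) *
        (∑ A : Finset α, if M.Indep (A : Set α) then ∏ a ∈ A, z a else 0) ≤
      (∑ A : Finset α, if M.Indep (A : Set α) ∧ e ∈ A then ∏ a ∈ A, z a else 0) *
        (∑ A : Finset α, if M.Indep (A : Set α) ∧ f ∈ A then ∏ a ∈ A, z a else 0)) ∨
    (∀ z : α → ℝ, (∀ x, 0 < z x) →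
      (∑ A : Finset α,
          if M.IsBase (A : Set α) ∧ e ∈ A ∧ f ∈ A then ∏ a ∈ A, z a else 0) *
        (∑ A : Finset α, if M.IsBase (A : Set α) then ∏ a ∈ A, z a else 0) ≤
      (∑ A : Finset α, if M.IsBase (A : Set α) ∧ e ∈ A then ∏ a ∈ A, z a else 0) *
        (∑ A : Finset α, if M.IsBase (A : Set α) ∧ f ∈ A then ∏ a ∈ A, z a else 0)))
    (z : α → ℝ) (hz : ∀ x, 0 < z x) :
    (∑ A : Finset α,
        if M.Spanning (A : Set α) ∧ e ∈ A ∧ f ∈ A then ∏ a ∈ A, z a else 0) *
      (∑ A : Finset α, if M.Spanning (A : Set α) then ∏ a ∈ A, z a else 0) ≤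
    (∑ A : Finset α, if M.Spanning (A : Set α) ∧ e ∈ A then ∏ a ∈ A, z a else 0) *
      (∑ A : Finset α, if M.Spanning (A : Set α) ∧ f ∈ A then ∏ a ∈ A, z a else 0) := by
  rcases hIB with hI | hB
  · exact Pool.IS.par_corr M hE hpav hef (fun r hr => Pool.IS.bi_of_matroid M hE hr) hI hz
  · exact Pool.IS.par_corr M hE hpav hef (fun r hr => Pool.IS.bi_base M hE hr) hB hz

end Pool.Agent.Results.MP_c59e09_co.PavingSpanning
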