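import Pool.Agent.Helper28.Rank3.Two

set_option autoImplicit false
open Classical

namespace Pool.Agent.Results.MP_c59e09_co.RankThreeSpanning

/-- Every finite matroid of rank at most three is spanning-correlated. -/
theorem result {α : Type*} [Fintype α] (M : Matroid α) (hE : M.E = Set.univ)
    (hr : M.eRank ≤ 3) (e f : α) (hef : e ≠ f) (z : α → ℝ) (hz : ∀ x, 0 < z x) :
    (∑ A : Finset α,
        if M.Spanning (A : Set α) ∧ e ∈ A ∧ f ∈ A then ∏ a ∈ A, z a else 0) *
      (∑ A : Finset α, if M.Spanning (A : Set α) then ∏ a ∈ A, z a else 0) ≤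
    (∑ A : Finset α, if M.Spanning (A : Set α) ∧ e ∈ A then ∏ a ∈ A, z a else 0) *
      (∑ A : Finset α, if M.Spanning (A : Set α) ∧ f ∈ A then ∏ a ∈ A, z a else 0) := by
  exact Pool.Agent.Helper28.Rank3.spanning_correlated M hE hr e f hef z hz

end Pool.Agent.Results.MP_c59e09_co.RankThreeSpanning
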